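import Pool.Agent.Q25.Arb2

set_option autoImplicit false

/-!
# Structure of ARBITRARY sets of `n` realising an admissible pattern `H` as consecutive primes

Let `H ∋ 0` be an admissible set with `k` elements and let `A` be an ARBITRARY set of natural numbers `n` which realise
`H` as consecutive primes (for example the set of all of them), `θ > 0` arbitrarily small, `X ^ θ ≤ Y ≤ X`. Nearly all
elements of `A` in `(X, X + Y]`, i.e. all with at most `ε Y / (log X) ^ k` exceptions (an arbitrarily small proportion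
of the expected number of realisations), are terms of `l`-term arithmetic progressions contained in `A ∩ (X, X + Y]`
whose difference is at most a fixed power of `log X`; and nearly all are regular points of `A`: the numbers of elements
of `A` in ALL intervals around the point of length between `(log X) ^ k / c` and `Y` have the conjectured order of
magnitude, and `A` has constant density up to `δ` on both sides of the point at all but `B (ε, δ)` dyadic scales.

The same holds for sets of `n` for which the `n + h`, `h ∈ H`, have no prime factor up to `n ^ (1 / r)`, `r` large, and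
then the whole set is large: `(X, X + Y]` contains at least `κ Y / (log X) ^ k` such `n` for which the `n + h` are
moreover CONSECUTIVE among the integers with this property and have at most `r` prime factors.
-/

namespace Pool.Agent.Results.MP_3ec731_nt.ArbitraryRealisations

open Finset Filter Pool.Agent.Q25.Arb

/-- `n` realises `H` as consecutive primes: the `n + h`, `h ∈ H`, are primes, and there are no other primes `n + m` with
`m` up to the maximum of `H`. -/
def Realises (H : Finset ℕ) (n : ℕ) : Prop :=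
  (∀ h ∈ H, (n + h).Prime) ∧ ∀ m : ℕ, (n + m).Prime → (∃ h ∈ H, m ≤ h) → m ∈ H

/-- **Arbitrary sets of realisations of an admissible pattern as consecutive primes.** -/
theorem result (H : Finset ℕ) (h0 : 0 ∈ H) (hadm : ∀ p : ℕ, p.Prime → ∃ r : ℕ, r < p ∧ ∀ h ∈ H, h % p ≠ r)
    (θ : ℝ) (hθ : 0 < θ) (hθ1 : θ ≤ 1) :
    -- narrow progressions
    (∀ l : ℕ, 2 ≤ l → ∀ ε : ℝ, 0 < ε → ∃ B : ℕ, ∀ᶠ X : ℕ in atTop, ∀ Y : ℕ, (X : ℝ) ^ θ ≤ Y → Y ≤ X →
      ∀ A : Set ℕ, (∀ n ∈ A, Realises H n) →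
        NearlyAll A l (Real.log X ^ B) X (X + Y) (ε * (Y / Real.log X ^ H.card))) ∧
    -- regular points
    (∀ ε : ℝ, 0 < ε → ∃ c : ℝ, 0 < c ∧ ∀ δ : ℝ, 0 < δ → ∃ B : ℕ, ∀ᶠ X : ℕ in atTop, ∀ Y : ℕ,
      (X : ℝ) ^ θ ≤ Y → 2 * Y ≤ X → ∀ A : Set ℕ, (∀ n ∈ A, Realises H n) →
        (N (Irregular A H.card c δ B X Y) X (X + Y) : ℝ) ≤ ε * (Y / Real.log X ^ H.card)) ∧
    -- the same for rough values, of which there are many consecutive ones
    ∃ r₀ : ℕ, ∀ r : ℕ, r₀ ≤ r →
      (∀ l : ℕ, 2 ≤ l → ∀ ε : ℝ, 0 < ε → ∃ B : ℕ, ∀ᶠ X : ℕ in atTop, ∀ Y : ℕ, (X : ℝ) ^ θ ≤ Y → Y ≤ X →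
        ∀ A : Set ℕ, (∀ n ∈ A, RoughPattern H r n) →
          NearlyAll A l (Real.log X ^ B) X (X + Y) (ε * (Y / Real.log X ^ H.card))) ∧
      (∀ ε : ℝ, 0 < ε → ∃ c : ℝ, 0 < c ∧ ∀ δ : ℝ, 0 < δ → ∃ B : ℕ, ∀ᶠ X : ℕ in atTop, ∀ Y : ℕ,
        (X : ℝ) ^ θ ≤ Y → 2 * Y ≤ X → ∀ A : Set ℕ, (∀ n ∈ A, RoughPattern H r n) →
          (N (Irregular A H.card c δ B X Y) X (X + Y) : ℝ) ≤ ε * (Y / Real.log X ^ H.card)) ∧
      ∃ κ : ℝ, 0 < κ ∧ ∀ᶠ X : ℕ in atTop, ∀ Y : ℕ, (X : ℝ) ^ θ ≤ Y → Y ≤ X →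
        κ * (Y / Real.log X ^ H.card) ≤
          (N {n | ConsecutiveRough H r n ∧ ∀ h ∈ H, (n + h).primeFactorsList.length ≤ r} X (X + Y) : ℝ) := by
  refine ⟨fun l hl ε hε => ?_, fun ε hε => ?_, rough_part H ⟨0, h0⟩ hadm H.card rfl θ hθ hθ1⟩
  · obtain ⟨B, hB⟩ := narrow H ⟨0, h0⟩ hadm H.card rfl θ hθ hθ1 l hl ε hε
    refine ⟨B, ?_⟩
    filter_upwards [hB] with X hX Y hXY hYX A hA
    exact hX Y hXY hYX A (fun n hn => (hA n hn).1)
  · obtain ⟨c, hc, h⟩ := regular H ⟨0, h0⟩ hadm H.card rfl θ hθ hθ1 ε hε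
    refine ⟨c, hc, fun δ hδ => ?_⟩
    obtain ⟨B, hB⟩ := h δ hδ
    refine ⟨B, ?_⟩
    filter_upwards [hB] with X hX Y hXY hYX A hA
    exact hX Y hXY hYX A (fun n hn => (hA n hn).1)

end Pool.Agent.Results.MP_3ec731_nt.ArbitraryRealisations
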