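import Mathlib
import Pool.Agent.H358R5.MainC
import Pool.Agent.Q51.CP.Often
import Pool.Agent.Q51.CP.Count

/-!
# The number of the patterns of consecutive primes and the word complexity of the primes

How many patterns are realised? The conjecture predicts all the admissible ones. We prove that every
admissible set of `L` integers has at least `exp (c (log L)^2)` subsets which are patterns of
consecutive primes, that at least `exp (c (log M)^2) = M ^ (c log M)` sets `H` with
`0 ∈ H ⊆ {0, …, M - 1}` are such patterns, and that at least `exp (c (log M)^2)` words of length `M`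
occur infinitely often (in fact at least `x^(1-ε)` times up to arbitrarily large `x`) in the
characteristic sequence of the primes, for every `c < 1/16` and all large `L` and `M`: its word
complexity grows faster than every polynomial.

Method: the theorem `Pool.Agent.H358R5.pattern_many` of the starting files (every admissible set of
`exp (4 m + 0.58)` integers contains a pattern with `m + 1` elements), for `m` growing with the set,
and a double counting.
-/

set_option autoImplicit false

namespace Pool.Agent.Results.MP_3ec731_nt.PatternComplexity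

open Finset Filter Pool.Agent.Q51.CP

/-- `H` misses a residue class modulo every prime -/
def Admissible (H : Finset ℤ) : Prop := ∀ p : ℕ, p.Prime → ∃ r : ℤ, ∀ h ∈ H, ¬ (p : ℤ) ∣ r + h

/-- all `n + h`, `h ∈ H`, are primes, and they are consecutive primes -/
def Realises (H : Finset ℤ) (n : ℕ) : Prop :=
  (∀ h ∈ H, ∃ p : ℕ, p.Prime ∧ (p : ℤ) = n + h) ∧
    ∀ p : ℕ, p.Prime → (∃ s ∈ H, ∃ t ∈ H, (n : ℤ) + s ≤ p ∧ (p : ℤ) ≤ n + t) → ∃ s ∈ H, (p : ℤ) = n + s

/-- for a set `H` of natural numbers with `0 ∈ H`: all `n + h`, `h ∈ H`, are primes and no other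
number in the interval `[n, n + max H]` is a prime -/
def RealisesNat (H : Finset ℕ) (n : ℕ) : Prop :=
  (∀ h ∈ H, (n + h).Prime) ∧ ∀ j : ℕ, (∃ t ∈ H, j ≤ t) → (n + j).Prime → j ∈ H

/-- the word of length `M` of the characteristic sequence of the primes at the place `n` is the
characteristic function of `B` -/
def WordAt (M : ℕ) (B : Finset ℕ) (n : ℕ) : Prop := ∀ j < M, ((n + j).Prime ↔ j ∈ B)

theorem subset_adm {S T : Finset ℤ} (hS : Admissible S) (hT : T ⊆ S) : Admissible T := by
  intro p hp
  obtain ⟨r, hr⟩ := hS p hp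
  exact ⟨r, fun h hh => hr h (hT hh)⟩

open Classical in
/-- the core: many patterns of the same number of elements -/
theorem core (c : ℝ) (hc : c < 1 / 16) : ∃ L₀ : ℕ, ∀ S : Finset ℤ, L₀ ≤ S.card → Admissible S →
    ∃ r : ℕ, 3 ≤ r ∧ Real.exp (c * Real.log S.card ^ 2) ≤
      (((S.powersetCard r).filter (fun R => Often (Realises R))).card : ℝ) := by
  obtain ⟨L₀, hL₀⟩ := params c hc
  refine ⟨L₀, fun S hS hadm => ?_⟩
  obtain ⟨r, K, hr3, hexp, hrK, hKL, hmain⟩ := hL₀ S.card hS
  refine ⟨r, hr3, ?_⟩
  have h1 := count_good S (fun R => Often (Realises R)) r K hrK hKL (by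
    intro T hT hTK
    have hpos : (0 : ℝ) < (T.card : ℝ) := by
      rw [hTK]
      have : 0 < K := by omega
      exact_mod_cast this
    obtain ⟨R, hR1, hR2, hR3⟩ := Pool.Agent.H358R5.pattern_many (r - 1) (by omega) T
      ((Real.le_log_iff_exp_le hpos).2 (by rw [hTK]; exact hexp)) (subset_adm hadm hT)
    exact ⟨R, hR1, by omega, hR3⟩)
  have h2 : (S.card.choose r : ℝ) ≤
      (((S.powersetCard r).filter (fun R => Often (Realises R))).card : ℝ) * (K.choose r : ℝ) := by
    exact_mod_cast h1
  have h3 : (0 : ℝ) < (K.choose r : ℝ) := by exact_mod_cast Nat.choose_pos hrK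
  exact le_of_mul_le_mul_right (hmain.trans h2) h3

/-- a large admissible set of primes -/
theorem exists_adm : ∀ᶠ M : ℕ in atTop, ∃ S : Finset ℤ, Admissible S ∧
    S.card = ⌊(M : ℝ) / (4 * Real.log M)⌋₊ ∧ ∀ s ∈ S, 0 ≤ s ∧ s < M := by
  have h1 : Tendsto (fun M : ℕ => Real.log M) atTop atTop :=
    Real.tendsto_log_atTop.comp tendsto_natCast_atTop_atTop
  have hlit : ∀ᶠ M : ℕ in atTop, Real.log M ≤ (M : ℝ) ^ (1 / 4 : ℝ) := by
    have := (isLittleO_log_rpow_atTop (r := 1 / 4) (by norm_num)).bound
      (show (0 : ℝ) < 1 by norm_num)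
    have h4 := tendsto_natCast_atTop_atTop.eventually this
    filter_upwards [h4, eventually_ge_atTop 1] with X hX hX1
    have hX1' : (1 : ℝ) ≤ X := by exact_mod_cast hX1
    simp only [Real.norm_eq_abs, one_mul] at hX
    rwa [abs_of_nonneg (Real.log_nonneg hX1'), abs_of_nonneg (by positivity)] at hX
  filter_upwards [h1.eventually_ge_atTop 100, hlit, eventually_ge_atTop 100] with M hM1 hM2 hM3
  have hM0 : (0 : ℝ) < M := by
    have : (100 : ℝ) ≤ M := by exact_mod_cast hM3
    linarith
  set ℓ := Real.log M with hℓ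
  set L := ⌊(M : ℝ) / (4 * ℓ)⌋₊ with hL
  have hL1 : (L : ℝ) ≤ M / (4 * ℓ) := Nat.floor_le (by positivity)
  -- the primes between `L` and `M`
  have hpi : (M : ℝ) / (2 * ℓ) + 2 ≤ (Nat.primeCounting M : ℝ) := by
    have h2 := Chebyshev.psi_ge M
    have h3 := Chebyshev.psi_le_primeCounting_mul_log M
    rw [← hℓ] at h3
    have h4 : Real.log (M + 1) ≤ (M : ℝ) / 100 := by
      have h5 : Real.log (M + 1) ≤ Real.log (2 * M) := by
        apply Real.log_le_log (by positivity)
        have : (100 : ℝ) ≤ M := by exact_mod_cast hM3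
        linarith
      rw [Real.log_mul (by norm_num) hM0.ne'] at h5
      have h6 : Real.log 2 ≤ 1 := by linarith [Real.log_two_lt_d9]
      have h7 : ℓ * ℓ ^ 3 ≤ (M : ℝ) := by
        calc ℓ * ℓ ^ 3 = ℓ ^ 4 := by ring
          _ ≤ ((M : ℝ) ^ (1 / 4 : ℝ)) ^ 4 := by gcongr
          _ = M := by
              rw [← Real.rpow_natCast, ← Real.rpow_mul hM0.le]
              norm_num
      have h8 : (100 : ℝ) ^ 3 ≤ ℓ ^ 3 := by gcongr
      nlinarith
    have h5 : 0.69 ≤ Real.log 2 := by linarith [Real.log_two_gt_d9]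
    have hℓ0 : 0 < ℓ := by linarith
    have h6 : (M : ℝ) * 0.68 ≤ Nat.primeCounting M * ℓ := by
      have h7 : (M : ℝ) * 0.69 ≤ M * Real.log 2 := by gcongr
      linarith
    have h7 : (M : ℝ) * 0.68 / ℓ ≤ Nat.primeCounting M := by
      rw [div_le_iff₀ hℓ0]
      exact h6
    refine le_trans ?_ h7
    have h8 : ℓ ≤ M * 0.09 := by
      have h9 : ℓ * ℓ ^ 3 ≤ (M : ℝ) := by
        calc ℓ * ℓ ^ 3 = ℓ ^ 4 := by ring
          _ ≤ ((M : ℝ) ^ (1 / 4 : ℝ)) ^ 4 := by gcongr
          _ = M := by
              rw [← Real.rpow_natCast, ← Real.rpow_mul hM0.le]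
              norm_num
      have h10 : (100 : ℝ) ^ 3 ≤ ℓ ^ 3 := by gcongr
      nlinarith
    rw [div_add' _ _ _ (by positivity), div_le_div_iff₀ (by positivity) hℓ0]
    nlinarith
  set P := (Finset.Ioo L M).filter Nat.Prime with hP
  have hPc : L ≤ P.card := by
    have h2 : Nat.primeCounting M ≤ P.card + (L + 1) + 1 := by
      have h3 : Nat.primeCounting M = ((Finset.range (M + 1)).filter Nat.Prime).card := by
        rw [Nat.primeCounting, Nat.primeCounting', Nat.count_eq_card_filter_range]
      rw [h3]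
      have h4 : (Finset.range (M + 1)).filter Nat.Prime ⊆ P ∪ Finset.range (L + 1) ∪ {M} := by
        intro p hp
        rw [Finset.mem_filter, Finset.mem_range] at hp
        rw [Finset.mem_union, Finset.mem_union, Finset.mem_singleton, Finset.mem_range, hP,
          Finset.mem_filter, Finset.mem_Ioo]
        by_cases h5 : p < L + 1
        · exact Or.inl (Or.inr h5)
        · by_cases h6 : p = M
          · exact Or.inr h6
          · exact Or.inl (Or.inl ⟨⟨by omega, by omega⟩, hp.2⟩)
      calc _ ≤ (P ∪ Finset.range (L + 1) ∪ {M}).card := Finset.card_le_card h4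
        _ ≤ P.card + (L + 1) + 1 := by
            refine (Finset.card_union_le _ _).trans ?_
            have h5 := Finset.card_union_le P (Finset.range (L + 1))
            rw [Finset.card_range] at h5
            rw [Finset.card_singleton]
            omega
    have h3 : (L : ℝ) + L + 2 ≤ (M : ℝ) / (2 * ℓ) + 2 := by
      have h4 : (M : ℝ) / (4 * ℓ) + M / (4 * ℓ) = M / (2 * ℓ) := by
        field_simp
        norm_num
      linarith
    have h4 : (L : ℝ) + L + 2 ≤ (P.card : ℝ) + (L + 1) + 1 := by
      refine h3.trans (hpi.trans ?_)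
      exact_mod_cast h2
    have h5 : (L : ℝ) ≤ P.card := by linarith
    exact_mod_cast h5
  obtain ⟨Q, hQP, hQL⟩ := Finset.exists_subset_card_eq hPc
  have hQ : ∀ p ∈ Q, L < p ∧ p < M ∧ p.Prime := by
    intro p hp
    have := hQP hp
    rw [hP, Finset.mem_filter, Finset.mem_Ioo] at this
    exact ⟨this.1.1, this.1.2, this.2⟩
  refine ⟨Q.image (fun p : ℕ => (p : ℤ)), ?_, ?_, ?_⟩
  · intro q hq
    rcases le_or_gt q L with h | h
    · refine ⟨0, fun s hs hd => ?_⟩
      rw [Finset.mem_image] at hs
      obtain ⟨p, hp, rfl⟩ := hs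
      rw [zero_add, Int.natCast_dvd_natCast] at hd
      obtain ⟨h1, h2, h3⟩ := hQ p hp
      have := (Nat.prime_dvd_prime_iff_eq hq h3).1 hd
      omega
    · -- few residue classes
      have hq0 : 0 < q := hq.pos
      have hcard : (Q.image (fun p : ℕ => (-(p : ℤ) % (q : ℤ)).toNat)).card < (Finset.range q).card := by
        rw [Finset.card_range]
        exact lt_of_le_of_lt (Finset.card_image_le.trans hQL.le) h
      obtain ⟨r, hr1, hr2⟩ := Finset.exists_mem_notMem_of_card_lt_card hcard
      rw [Finset.mem_range] at hr1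
      refine ⟨r, fun s hs hd => hr2 ?_⟩
      rw [Finset.mem_image] at hs
      obtain ⟨p, hp, rfl⟩ := hs
      rw [Finset.mem_image]
      refine ⟨p, hp, ?_⟩
      have h2 : (-(p : ℤ)) % (q : ℤ) = r := by
        have h3 : (r : ℤ) % q = r := Int.emod_eq_of_lt (by omega) (by exact_mod_cast hr1)
        rw [← h3]
        apply Int.ModEq.eq
        rw [Int.modEq_iff_dvd]
        convert hd using 1
        ring
      rw [h2]
      rfl
  · rw [Finset.card_image_of_injective _ Nat.cast_injective, hQL]
  · intro s hs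
    rw [Finset.mem_image] at hs
    obtain ⟨p, hp, rfl⟩ := hs
    obtain ⟨h1, h2, h3⟩ := hQ p hp
    exact ⟨by positivity, by exact_mod_cast h2⟩

/-- the least element -/
noncomputable def low (R : Finset ℤ) : ℤ := if h : R.Nonempty then R.min' h else 0

/-- the pattern moved to `0` -/
noncomputable def norm (R : Finset ℤ) : Finset ℕ := R.image (fun s => (s - low R).toNat)

theorem low_mem {R : Finset ℤ} (h : R.Nonempty) : low R ∈ R := by
  rw [low, dif_pos h]
  exact Finset.min'_mem R h

theorem low_le {R : Finset ℤ} {s : ℤ} (hs : s ∈ R) : low R ≤ s := by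
  rw [low, dif_pos ⟨s, hs⟩]
  exact Finset.min'_le R s hs

theorem mem_norm {R : Finset ℤ} {j : ℕ} : j ∈ norm R ↔ low R + j ∈ R := by
  rw [norm, Finset.mem_image]
  constructor
  · rintro ⟨s, hs, rfl⟩
    have := low_le hs
    rw [Int.toNat_of_nonneg (by omega)]
    convert hs using 1
    ring
  · intro h
    exact ⟨low R + j, h, by simp⟩

theorem card_norm (R : Finset ℤ) : (norm R).card = R.card := by
  rw [norm]
  refine Finset.card_image_of_injOn ?_
  intro s hs t ht hst
  have h1 := low_le hs
  have h2 := low_le ht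
  simp only at hst
  omega

theorem realises_norm {R : Finset ℤ} (h : R.Nonempty) (h0 : 0 ≤ low R) {n : ℕ}
    (hn : Realises R n) : RealisesNat (norm R) (n + (low R).toNat) := by
  obtain ⟨h1, h2⟩ := hn
  constructor
  · intro j hj
    obtain ⟨p, hp, hpe⟩ := h1 _ (mem_norm.1 hj)
    have : n + (low R).toNat + j = p := by omega
    rw [this]
    exact hp
  · rintro j ⟨t, ht, hjt⟩ hpr
    rw [mem_norm] at ht ⊢
    obtain ⟨s, hs, hse⟩ := h2 _ hpr ⟨low R, low_mem h, low R + t, ht, by push_cast; omega,
      by push_cast; omega⟩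
    have : low R + j = s := by
      push_cast at hse
      omega
    rw [this]
    exact hs

open Classical in
/-- many patterns in `[0, M)` with the same number of elements -/
theorem many_patterns (c : ℝ) (hc : c < 1 / 16) : ∀ᶠ M : ℕ in atTop, ∃ r : ℕ, 3 ≤ r ∧
    Real.exp (c * Real.log M ^ 2) ≤ ((((Finset.range M).powersetCard r).filter
      (fun H => 0 ∈ H ∧ Often (RealisesNat H))).card : ℝ) := by
  set c₁ := max c (1 / 32) with hc₁
  have hc₁a : c ≤ c₁ := le_max_left _ _
  have hc₁b : 1 / 32 ≤ c₁ := le_max_right _ _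
  have hc₁c : c₁ < 1 / 16 := max_lt hc (by norm_num)
  set c' := (c₁ + 1 / 16) / 2 with hc'
  have hc'1 : c₁ < c' := by rw [hc']; linarith
  have hc'2 : c' < 1 / 16 := by rw [hc']; linarith
  have hc'0 : 0 < c' := by linarith
  set θ := Real.sqrt ((c₁ / c' + 1) / 2) with hθ
  have hq : c₁ / c' < 1 := by rw [div_lt_one hc'0]; exact hc'1
  have hq0 : 0 < c₁ / c' := by positivity
  have hθ2 : θ ^ 2 = (c₁ / c' + 1) / 2 := by rw [hθ, Real.sq_sqrt (by positivity)]
  have hθ1 : θ < 1 := by
    rw [hθ, Real.sqrt_lt' one_pos]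
    linarith
  have hθ0 : 0 ≤ θ := Real.sqrt_nonneg _
  have hθc : c' * θ ^ 2 = (c₁ + c') / 2 := by
    rw [hθ2]
    field_simp
  obtain ⟨L₀, hL₀⟩ := core c' hc'2
  have h1 : Tendsto (fun M : ℕ => Real.log M) atTop atTop :=
    Real.tendsto_log_atTop.comp tendsto_natCast_atTop_atTop
  have h2 : Tendsto (fun M : ℕ => (M : ℝ) ^ θ) atTop atTop :=
    (tendsto_rpow_atTop (by rw [hθ]; exact Real.sqrt_pos.2 (by positivity))).comp
      tendsto_natCast_atTop_atTop
  have hlit : ∀ᶠ M : ℕ in atTop, 8 * Real.log M ≤ (M : ℝ) ^ (1 - θ) := by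
    have := (isLittleO_log_rpow_atTop (r := 1 - θ) (by linarith)).bound
      (show (0 : ℝ) < 1 / 8 by norm_num)
    have h4 := tendsto_natCast_atTop_atTop.eventually this
    filter_upwards [h4, eventually_ge_atTop 1] with X hX hX1
    have hX1' : (1 : ℝ) ≤ X := by exact_mod_cast hX1
    simp only [Real.norm_eq_abs] at hX
    rw [abs_of_nonneg (Real.log_nonneg hX1'), abs_of_nonneg (by positivity)] at hX
    linarith
  filter_upwards [exists_adm, h1.eventually_ge_atTop (2 / (c' - c₁) + 1), hlit,
    h2.eventually_ge_atTop (L₀ + 2 : ℝ), eventually_ge_atTop 2] with M hS hM1 hM2 hM3 hM4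
  obtain ⟨S, hadm, hcard, hrange⟩ := hS
  have hM0 : (0 : ℝ) < M := by
    have : (2 : ℝ) ≤ M := by exact_mod_cast hM4
    linarith
  set ℓ := Real.log M with hℓ
  have hcc : 0 < c' - c₁ := by linarith
  have hℓ1 : 2 / (c' - c₁) ≤ ℓ := by linarith
  have hℓ0 : 0 < ℓ := by
    have : 0 < 2 / (c' - c₁) := by positivity
    linarith
  -- the size of the admissible set
  have hL1 : (M : ℝ) ^ θ ≤ (S.card : ℝ) := by
    have h3 : 2 * (M : ℝ) ^ θ ≤ M / (4 * ℓ) := by
      rw [le_div_iff₀ (by positivity)]
      calc 2 * (M : ℝ) ^ θ * (4 * ℓ) = (M : ℝ) ^ θ * (8 * ℓ) := by ring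
        _ ≤ (M : ℝ) ^ θ * (M : ℝ) ^ (1 - θ) := by gcongr
        _ = M := by
            rw [← Real.rpow_add hM0]
            norm_num
    have h4 := Nat.lt_floor_add_one ((M : ℝ) / (4 * ℓ))
    rw [← hcard] at h4
    have h5 : (0 : ℝ) ≤ L₀ := Nat.cast_nonneg _
    linarith
  have hLL : L₀ ≤ S.card := by
    have : (L₀ : ℝ) ≤ S.card := by linarith
    exact_mod_cast this
  obtain ⟨r, hr3, hr⟩ := hL₀ S hLL hadm
  refine ⟨r, hr3, ?_⟩
  -- the map to the patterns starting at `0`
  have hcount : ((S.powersetCard r).filter (fun R => Often (Realises R))).card ≤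
      ((((Finset.range M).powersetCard r).filter
        (fun H => 0 ∈ H ∧ Often (RealisesNat H))) ×ˢ Finset.range M).card := by
    refine Finset.card_le_card_of_injOn (fun R => (norm R, (low R).toNat)) ?_ ?_
    · intro R hR
      rw [Finset.mem_coe, Finset.mem_filter, Finset.mem_powersetCard] at hR
      obtain ⟨⟨hRS, hRc⟩, hRo⟩ := hR
      have hne : R.Nonempty := by
        rw [← Finset.card_pos]
        omega
      have hlow := hrange _ (hRS (low_mem hne))
      rw [Finset.mem_coe, Finset.mem_product, Finset.mem_filter, Finset.mem_powersetCard,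
        Finset.mem_range]
      refine ⟨⟨⟨?_, ?_⟩, ?_, ?_⟩, ?_⟩
      · intro j hj
        rw [mem_norm] at hj
        have := hrange _ (hRS hj)
        rw [Finset.mem_range]
        omega
      · rw [card_norm, hRc]
      · rw [mem_norm]
        simpa using low_mem hne
      · exact often_shift (low R).toNat (fun n hn => realises_norm hne hlow.1 hn) hRo
      · show (low R).toNat < M
        omega
    · intro R hR R' hR' heq
      rw [Finset.mem_coe, Finset.mem_filter, Finset.mem_powersetCard] at hR hR'
      have hne : R.Nonempty := by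
        rw [← Finset.card_pos]
        omega
      have hne' : R'.Nonempty := by
        rw [← Finset.card_pos]
        omega
      have hlow := hrange _ (hR.1.1 (low_mem hne))
      have hlow' := hrange _ (hR'.1.1 (low_mem hne'))
      simp only [Prod.mk.injEq] at heq
      obtain ⟨h3, h4⟩ := heq
      have h5 : low R = low R' := by omega
      ext s
      constructor
      · intro hs
        have h6 := low_le hs
        have h7 : (s - low R).toNat ∈ norm R := by
          rw [mem_norm, Int.toNat_of_nonneg (by omega)]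
          convert hs using 1
          ring
        rw [h3, mem_norm, Int.toNat_of_nonneg (by omega), ← h5] at h7
        convert h7 using 1
        ring
      · intro hs
        have h6 := low_le hs
        have h7 : (s - low R').toNat ∈ norm R' := by
          rw [mem_norm, Int.toNat_of_nonneg (by omega)]
          convert hs using 1
          ring
        rw [← h3, mem_norm, Int.toNat_of_nonneg (by omega), h5] at h7
        convert h7 using 1
        ring
  rw [Finset.card_product, Finset.card_range] at hcount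
  set N := (((Finset.range M).powersetCard r).filter
        (fun H => 0 ∈ H ∧ Often (RealisesNat H))).card with hN
  have h3 : Real.exp (c' * Real.log S.card ^ 2) ≤ (N : ℝ) * M := by
    refine hr.trans ?_
    exact_mod_cast hcount
  have h4 : θ * ℓ ≤ Real.log S.card := by
    rw [hℓ, ← Real.log_rpow hM0]
    exact Real.log_le_log (by positivity) hL1
  have h5 : Real.exp ((c₁ + c') / 2 * ℓ ^ 2) ≤ Real.exp (c' * Real.log S.card ^ 2) := by
    rw [Real.exp_le_exp, ← hθc]
    have : (θ * ℓ) ^ 2 ≤ Real.log S.card ^ 2 := by gcongr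
    calc c' * θ ^ 2 * ℓ ^ 2 = c' * (θ * ℓ) ^ 2 := by ring
      _ ≤ c' * Real.log S.card ^ 2 := by gcongr
  have h6 : Real.exp (c * ℓ ^ 2) * M ≤ Real.exp ((c₁ + c') / 2 * ℓ ^ 2) := by
    have h7 : (M : ℝ) = Real.exp ℓ := (Real.exp_log hM0).symm
    rw [h7, ← Real.exp_add, Real.exp_le_exp]
    have h8 : ℓ ≤ (c' - c₁) / 2 * ℓ ^ 2 := by
      have h9 : 1 ≤ (c' - c₁) / 2 * ℓ := by
        rw [div_le_iff₀ hcc] at hℓ1
        linarith
      nlinarith
    have h9 : c * ℓ ^ 2 ≤ c₁ * ℓ ^ 2 := by gcongr
    nlinarith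
  exact le_of_mul_le_mul_right (h6.trans (h5.trans h3)) hM0

open Classical in
/-- patterns of the same number of elements extend to different words -/
theorem words_of_patterns (M r : ℕ) :
    (((Finset.range M).powersetCard r).filter
      (fun H => 0 ∈ H ∧ Often (RealisesNat H))).card ≤
    {B : Finset ℕ | B ⊆ Finset.range M ∧ Often (WordAt M B)}.ncard := by
  have hex : ∀ H : Finset ℕ, Often (RealisesNat H) → ∃ B ⊆ Finset.range M,
      Often (fun n => WordAt M B n ∧ RealisesNat H n) := by
    intro H hH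
    obtain ⟨B, hB, hB2⟩ := often_union (Q := fun B n => WordAt M B n ∧ RealisesNat H n)
      (Finset.range M).powerset (P := RealisesNat H) (by
        intro n hn
        refine ⟨(Finset.range M).filter (fun j => (n + j).Prime), by simp, ?_, hn⟩
        intro j hj
        rw [Finset.mem_filter, Finset.mem_range]
        tauto) hH
    exact ⟨B, Finset.mem_powerset.1 hB, hB2⟩
  choose! B hB1 hB2 using hex
  have hfin : {B : Finset ℕ | B ⊆ Finset.range M ∧ Often (WordAt M B)}.Finite :=
    (Finset.finite_toSet (Finset.range M).powerset).subset (fun B hB => by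
      rw [Finset.mem_coe, Finset.mem_powerset]
      exact hB.1)
  rw [← Set.ncard_coe_finset]
  refine Set.ncard_le_ncard_of_injOn B ?_ ?_ hfin
  · intro H hH
    rw [Finset.mem_coe, Finset.mem_filter] at hH
    exact ⟨hB1 H hH.2.2, (hB2 H hH.2.2).mono (fun n hn => hn.1)⟩
  · intro H hH H' hH' heq
    rw [Finset.mem_coe, Finset.mem_filter, Finset.mem_powersetCard] at hH hH'
    obtain ⟨n, hn1, hn2⟩ := (hB2 H hH.2.2).exists
    obtain ⟨n', hn1', hn2'⟩ := (hB2 H' hH'.2.2).exists
    have hin : ∀ j ∈ H, j ∈ B H := fun j hj =>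
      (hn1 j (Finset.mem_range.1 (hH.1.1 hj))).1 (hn2.1 j hj)
    have hin' : ∀ j ∈ H', j ∈ B H' := fun j hj =>
      (hn1' j (Finset.mem_range.1 (hH'.1.1 hj))).1 (hn2'.1 j hj)
    have hout : ∀ j ∈ B H, ∀ t ∈ H, j ≤ t → j ∈ H := fun j hj t ht hjt =>
      hn2.2 j ⟨t, ht, hjt⟩ ((hn1 j (Finset.mem_range.1 (hB1 H hH.2.2 hj))).2 hj)
    have hout' : ∀ j ∈ B H', ∀ t ∈ H', j ≤ t → j ∈ H' := fun j hj t ht hjt =>
      hn2'.2 j ⟨t, ht, hjt⟩ ((hn1' j (Finset.mem_range.1 (hB1 H' hH'.2.2 hj))).2 hj)
    have hne : H.Nonempty := ⟨0, hH.2.1⟩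
    have hne' : H'.Nonempty := ⟨0, hH'.2.1⟩
    rcases le_total (H.max' hne) (H'.max' hne') with h | h
    · refine Finset.eq_of_subset_of_card_le ?_ (by omega)
      intro j hj
      exact hout' j (heq ▸ hin j hj) _ (H'.max'_mem hne') ((H.le_max' j hj).trans h)
    · symm
      refine Finset.eq_of_subset_of_card_le ?_ (by omega)
      intro j hj
      exact hout j (heq.symm ▸ hin' j hj) _ (H.max'_mem hne) ((H'.le_max' j hj).trans h)

/-- Let `c < 1/16`. (1) For all large `L` every set of `L` integers which misses a residue class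
modulo every prime has at least `exp (c (log L)^2)` subsets `R` such that for every `ε > 0` there are
arbitrarily large `x` with at least `x^(1-ε)` integers `0 ≤ n ≤ x` for which the `n + h`, `h ∈ R`, are
consecutive primes. (2) For all large `M` at least `exp (c (log M)^2)` sets `H` with
`0 ∈ H ⊆ {0, …, M - 1}` have this property. (3) For all large `M` at least `exp (c (log M)^2)` words of
length `M` occur in the characteristic sequence of the primes, each of them at least `x^(1-ε)` times
up to arbitrarily large `x`, for every `ε > 0`. -/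
theorem result (c : ℝ) (hc : c < 1 / 16) :
    (∃ L₀ : ℕ, ∀ S : Finset ℤ, L₀ ≤ S.card → Admissible S →
      Real.exp (c * Real.log S.card ^ 2) ≤
        ({R : Finset ℤ | R ⊆ S ∧ Often (Realises R)}.ncard : ℝ)) ∧
    (∀ᶠ M : ℕ in atTop, Real.exp (c * Real.log M ^ 2) ≤
      ({H : Finset ℕ | H ⊆ Finset.range M ∧ 0 ∈ H ∧ Often (RealisesNat H)}.ncard : ℝ)) ∧
    (∀ᶠ M : ℕ in atTop, Real.exp (c * Real.log M ^ 2) ≤
      ({B : Finset ℕ | B ⊆ Finset.range M ∧ Often (WordAt M B)}.ncard : ℝ)) := by
  classical
  refine ⟨?_, ?_, ?_⟩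
  · obtain ⟨L₀, hL₀⟩ := core c hc
    refine ⟨L₀, fun S hS hadm => ?_⟩
    obtain ⟨r, _, hr⟩ := hL₀ S hS hadm
    refine hr.trans ?_
    have h1 : (↑((S.powersetCard r).filter (fun R => Often (Realises R))) : Set (Finset ℤ)) ⊆
        {R : Finset ℤ | R ⊆ S ∧ Often (Realises R)} := by
      intro R hR
      rw [Finset.mem_coe, Finset.mem_filter, Finset.mem_powersetCard] at hR
      exact ⟨hR.1.1, hR.2⟩
    have h2 := Set.ncard_le_ncard h1 ((Finset.finite_toSet S.powerset).subset (fun R hR => by
      rw [Finset.mem_coe, Finset.mem_powerset]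
      exact hR.1))
    rw [Set.ncard_coe_finset] at h2
    exact_mod_cast h2
  · filter_upwards [many_patterns c hc] with M hM
    obtain ⟨r, _, hr⟩ := hM
    refine hr.trans ?_
    have h1 : (↑(((Finset.range M).powersetCard r).filter
        (fun H => 0 ∈ H ∧ Often (RealisesNat H))) : Set (Finset ℕ)) ⊆
        {H : Finset ℕ | H ⊆ Finset.range M ∧ 0 ∈ H ∧ Often (RealisesNat H)} := by
      intro H hH
      rw [Finset.mem_coe, Finset.mem_filter, Finset.mem_powersetCard] at hH
      exact ⟨hH.1.1, hH.2⟩
    have h2 := Set.ncard_le_ncard h1 ((Finset.finite_toSet (Finset.range M).powerset).subset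
      (fun H hH => by
        rw [Finset.mem_coe, Finset.mem_powerset]
        exact hH.1))
    rw [Set.ncard_coe_finset] at h2
    exact_mod_cast h2
  · filter_upwards [many_patterns c hc] with M hM
    obtain ⟨r, _, hr⟩ := hM
    refine hr.trans ?_
    exact_mod_cast words_of_patterns M r

end Pool.Agent.Results.MP_3ec731_nt.PatternComplexity
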