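import Mathlib
import Pool.Agent.Q51.CP.Clique

/-!
# Polynomially large sets all of whose differences are gaps between consecutive primes

Every finite set `A` of integers contains a set `B` with at least `16 |A| ^ (1/44) - 44` elements such
that EVERY difference of two elements of `B` is a gap between consecutive primes, infinitely often
(at least `x ^ (1 - ε)` times up to arbitrarily large `x`, for every `ε > 0`). The same holds for
consecutive primes the first of which lies in a given reduced residue class modulo `q`, with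
`|A| / q` in place of `|A|`.

Method: a finite sieve by the primes below `45`; the exact form of `DHL[45,2]` of the starting files
(`Pool.Agent.Y826.ZG.dhl45L`, `Pool.Agent.Y826.ZC.exact45_of`), which shows that there are no `45`
elements without a good difference in the sifted set; and Ramsey's theorem with the bound of Erdős
and Szekeres.
-/

set_option autoImplicit false

namespace Pool.Agent.Results.MP_3ec731_nt.PolynomialCliques

open Finset Filter Pool.Agent.Q51.CP

/-- `d` is a gap between two consecutive primes the first of which is congruent to `a` modulo `q`, for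
at least `x ^ (1 - ε)` primes up to `x`, for arbitrarily large `x`, for every `ε > 0` -/
def IsFrequentGap (q a d : ℕ) : Prop :=
  ∀ ε : ℝ, 0 < ε → ∃ᶠ x : ℝ in atTop, x ^ (1 - ε) ≤ (Set.ncard {p : ℕ | (p : ℝ) ≤ x ∧
    p.Prime ∧ p ≡ a [MOD q] ∧ (p + d).Prime ∧ ∀ j, 0 < j → j < d → ¬ (p + j).Prime} : ℝ)

theorem numeric : (16 : ℝ) ^ 44 ≤ (Nat.factorial 44 : ℝ) *
    (([2, 3, 5, 7, 11, 13, 17, 19, 23, 29, 31, 37, 41, 43] : List ℕ).map
      (fun p : ℕ => 1 - 1 / (p : ℝ))).prod := by
  simp only [List.map_cons, List.map_nil, List.prod_cons, List.prod_nil]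
  norm_num [Nat.factorial]

theorem prime_le_43 {p : ℕ} (hp : p.Prime) (h : p < 45) :
    p ∈ ([2, 3, 5, 7, 11, 13, 17, 19, 23, 29, 31, 37, 41, 43] : List ℕ) := by
  interval_cases p <;> revert hp <;> decide

/-- 45 elements do not meet all the classes modulo a prime `p ≥ 45` -/
theorem adm_large (S : Finset ℤ) (p : ℕ) (hp : 0 < p) (hS : S.card < p) :
    ∃ r : ℤ, ∀ s ∈ S, ¬ (p : ℤ) ∣ r + s := by
  classical
  by_contra hcon
  push Not at hcon
  choose f hf1 hf2 using fun i : Fin p => hcon (-(i : ℤ))
  have hinj : Function.Injective f := by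
    intro i j hij
    have h1 := hf2 i
    have h2 := hf2 j
    rw [hij] at h1
    have h3 : (p : ℤ) ∣ (i : ℤ) - j := by
      have := dvd_sub h2 h1
      have e : (-(j : ℤ) + f j) - (-(i : ℤ) + f j) = (i : ℤ) - j := by ring
      rwa [e] at this
    have h4 : (i : ℕ) ≡ j [MOD p] := (Int.natCast_modEq_iff.1 (Int.modEq_iff_dvd.2 h3)).symm
    exact Fin.ext (Nat.ModEq.eq_of_lt_of_lt h4 i.2 j.2)
  have := Finset.card_le_card_of_injOn (s := (Finset.univ : Finset (Fin p))) (t := S) f
    (fun i _ => hf1 i) (fun i _ j _ h => hinj h)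
  simp at this
  omega

/-- **Main result.** Every finite set `A` of integers contains a set `B` with at least
`16 (|A| / q) ^ (1 / 44) - 44` elements all of whose differences are gaps between consecutive primes
`p < p'`, with `p ≡ a` modulo `q`, for at least `x ^ (1 - ε)` primes `p ≤ x` and arbitrarily large `x`. -/
theorem result (q a : ℕ) (hq : 0 < q) (ha : a.Coprime q) (A : Finset ℤ) :
    ∃ B ⊆ A, 16 * ((A.card : ℝ) / q) ^ (1 / 44 : ℝ) - 44 ≤ (B.card : ℝ) ∧
      ∀ s ∈ B, ∀ t ∈ B, s < t → IsFrequentGap q a (t - s).toNat := by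
  classical
  obtain ⟨s₀, hs₀⟩ := exists_class A q hq
  set A₁ := A.filter (fun x => x ≡ s₀ [ZMOD q]) with hA₁
  obtain ⟨A₂, hA₂, hcl, hc₂⟩ := sieve [2, 3, 5, 7, 11, 13, 17, 19, 23, 29, 31, 37, 41, 43]
    (by intro p hp; simp at hp; omega) A₁
  rcases Nat.eq_zero_or_pos A₂.card with h0 | hpos
  · -- then `A` is empty
    have hρ : (0 : ℝ) < (([2, 3, 5, 7, 11, 13, 17, 19, 23, 29, 31, 37, 41, 43] : List ℕ).map
      (fun p : ℕ => 1 - 1 / (p : ℝ))).prod := by
      simp only [List.map_cons, List.map_nil, List.prod_cons, List.prod_nil]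
      norm_num
    have h1 : (A₁.card : ℝ) ≤ 0 := by
      by_contra hcon
      have := mul_pos (not_le.1 hcon) hρ
      rw [h0] at hc₂
      push_cast at hc₂
      linarith
    have hA0 : (A.card : ℝ) / q = 0 := by
      have h2 : (0 : ℝ) ≤ (A.card : ℝ) / q := by positivity
      linarith
    refine ⟨∅, Finset.empty_subset _, ?_, by simp⟩
    rw [hA0, Real.zero_rpow (by norm_num)]
    simp
  · -- the clique
    obtain ⟨t, ht1, ht2⟩ : ∃ t : ℕ, (44 + t).choose 44 ≤ A₂.card ∧
        A₂.card < (45 + t).choose 44 := by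
      have hex : ∃ t : ℕ, A₂.card < (45 + t).choose 44 := by
        refine ⟨A₂.card, ?_⟩
        calc A₂.card < 45 + A₂.card := by omega
          _ = (45 + A₂.card).choose 1 := by rw [Nat.choose_one_right]
          _ ≤ _ := by
              induction A₂.card with
              | zero => decide
              | succ n ih =>
                rw [← Nat.add_assoc, Nat.choose_one_right, Nat.choose_succ_succ' (45 + n) 43]
                rw [Nat.choose_one_right] at ih
                have : 1 ≤ (45 + n).choose 43 := Nat.choose_pos (by omega)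
                have e : 43 + 1 = 44 := rfl
                rw [e]
                omega
      classical
      refine ⟨Nat.find hex, ?_, Nat.find_spec hex⟩
      rcases Nat.eq_zero_or_pos (Nat.find hex) with h | h
      · rw [h]
        simpa using hpos
      · have h2 := Nat.find_min hex (m := Nat.find hex - 1) (by omega)
        rw [show 45 + (Nat.find hex - 1) = 44 + Nat.find hex by omega] at h2
        exact not_lt.1 h2
    have hram := ramsey (fun x y : ℤ => x ≠ y ∧ GapOften q a (y - x).natAbs) (by
      rintro x y ⟨h1, h2⟩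
      refine ⟨h1.symm, ?_⟩
      rwa [show x - y = -(y - x) by ring, Int.natAbs_neg]) 44 t A₂ ht1
    rcases hram with ⟨S, hS, hSc, hSS⟩ | ⟨B, hB, hBc, hBB⟩
    · exfalso
      obtain ⟨s, hs, u, hu, hsu, hgap⟩ := pair_of q a hq ha S (by omega) (by
        intro p hp
        rcases lt_or_ge p 45 with h | h
        · obtain ⟨r, hr⟩ := hcl p (prime_le_43 hp h)
          exact ⟨r, fun s hs => hr s (hS hs)⟩
        · have hp45 : p ≠ 45 := by
            rintro rfl
            revert hp
            decide
          exact adm_large S p hp.pos (by omega)) s₀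
        (fun s hs => (Finset.mem_filter.1 (hA₂ (hS hs))).2)
      refine hSS s hs u hu hsu.ne ⟨hsu.ne, ?_⟩
      rwa [show (u - s).natAbs = (u - s).toNat by omega]
    · refine ⟨B, fun x hx => (Finset.mem_filter.1 (hA₂ (hB hx))).1, ?_, ?_⟩
      · rw [hBc]
        have h1 : ((45 + t).choose 44 : ℝ) ≤ ((45 + t : ℕ) : ℝ) ^ 44 / (Nat.factorial 44 : ℝ) :=
          Nat.choose_le_pow_div 44 (45 + t)
        have h2 : (A₂.card : ℝ) ≤ ((45 + t : ℕ) : ℝ) ^ 44 / (Nat.factorial 44 : ℝ) :=
          le_trans (by exact_mod_cast ht2.le) h1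
        have hf : (0 : ℝ) < (Nat.factorial 44 : ℝ) := by exact_mod_cast Nat.factorial_pos 44
        rw [le_div_iff₀ hf] at h2
        have h3 : (16 : ℝ) ^ 44 * ((A.card : ℝ) / q) ≤ ((45 + t : ℕ) : ℝ) ^ 44 := by
          have hAq : (0 : ℝ) ≤ (A.card : ℝ) / q := by positivity
          have hρ : (0 : ℝ) ≤ (([2, 3, 5, 7, 11, 13, 17, 19, 23, 29, 31, 37, 41, 43] : List ℕ).map
              (fun p : ℕ => 1 - 1 / (p : ℝ))).prod := by
            simp only [List.map_cons, List.map_nil, List.prod_cons, List.prod_nil]
            norm_num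
          calc (16 : ℝ) ^ 44 * ((A.card : ℝ) / q)
              ≤ ((Nat.factorial 44 : ℝ) * (([2, 3, 5, 7, 11, 13, 17, 19, 23, 29, 31, 37, 41, 43] :
                List ℕ).map (fun p : ℕ => 1 - 1 / (p : ℝ))).prod) * ((A.card : ℝ) / q) := by
                gcongr
                exact numeric
            _ ≤ ((Nat.factorial 44 : ℝ) * (([2, 3, 5, 7, 11, 13, 17, 19, 23, 29, 31, 37, 41, 43] :
                List ℕ).map (fun p : ℕ => 1 - 1 / (p : ℝ))).prod) * A₁.card := by
                gcongr
            _ = (A₁.card * (([2, 3, 5, 7, 11, 13, 17, 19, 23, 29, 31, 37, 41, 43] :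
                List ℕ).map (fun p : ℕ => 1 - 1 / (p : ℝ))).prod) * (Nat.factorial 44 : ℝ) := by ring
            _ ≤ A₂.card * (Nat.factorial 44 : ℝ) := by gcongr
            _ ≤ _ := h2
        have h4 : 16 * ((A.card : ℝ) / q) ^ (1 / 44 : ℝ) ≤ ((45 + t : ℕ) : ℝ) := by
          have hAq : (0 : ℝ) ≤ (A.card : ℝ) / q := by positivity
          have h5 : (16 * ((A.card : ℝ) / q) ^ (1 / 44 : ℝ)) ^ 44 ≤ ((45 + t : ℕ) : ℝ) ^ 44 := by
            rw [mul_pow, ← Real.rpow_natCast (((A.card : ℝ) / q) ^ (1 / 44 : ℝ)) 44,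
              ← Real.rpow_mul hAq]
            norm_num
            norm_num at h3
            exact h3
          exact le_of_pow_le_pow_left₀ (by norm_num) (by positivity) h5
        push_cast at h4 ⊢
        linarith
      · intro s hs u hu hsu
        have h1 := hBB s hs u hu hsu.ne
        have h2 := h1.2
        rw [show (u - s).natAbs = (u - s).toNat by omega] at h2
        exact h2

end Pool.Agent.Results.MP_3ec731_nt.PolynomialCliques
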