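import Pool.Agent.Y816.PD.UniJ

/-!
# Almost primes in every admissible pattern with no prime between them, near every base point and with restricted digits

Let `H` be an admissible pattern (a finite set of natural numbers containing `0` which misses a residue class modulo every prime) with
`k` elements, let `L` be any number and `E ≥ 0`. Let `g ≥ 2` be a base and `K` a large number of digits. For every `i < K` let `A i`
be an arbitrary non-empty set of digits. Nothing is assumed about these sets except that they are not too small on average: the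
number `|A 0| ⋯ |A (K - 1)|` of the integers `j < g ^ K` whose `i`-th digit belongs to `A i` for all `i < K` is at least
`exp (- c K) g ^ K`, where `c > 0` depends only on `H`, `L` and `E`.

For EVERY base point `N ≤ g ^ (E K)` (so that the window `[N, N + g ^ K)` may be an arbitrarily small power of `N`) the numbers
`j < g ^ K` with digits in the sets `A i` such that `n = N + j` realises the pattern `H` in the following sense are counted up to a
constant factor: all `n + h`, `h ∈ H`, have at most `r` prime factors, all greater than `g ^ (K / r)`, and NO other integer in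
`[n, n + L]` is a prime. Their number is at least `κ |A 0| ⋯ |A (K - 1)| / K ^ k`, the expected order, unless there is an obvious
obstruction (no digit `d` in `A 0` such that all `N + d + h` are prime to `g`, or no digit `d ≠ 0` in `A (K - 1)`). The number of the
`j < g ^ K` with these digits for which all `N + j + h` are primes (in particular, of those for which `N + j` realises `H` as
consecutive primes) is at most `C |A 0| ⋯ |A (K - 1)| / K ^ k`. The constants do not depend on `N` and on the sets `A i`.

Proof. The theorem `Pool.Agent.Y816.PD.uni_gap` of the starting library (a sieve, uniform in the polynomial, for integers with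
restricted digits: the almost primes in the pattern `H` are more numerous, by a power of `K`, than those for which `n + e` is a prime,
if `H ∪ {e}` is admissible). If `H ∪ {e}` is not admissible, a small prime divides `n + e` for all these `n`.
-/

set_option autoImplicit false

namespace Pool.Agent.Results.MP_3ec731_nt.RestrictedDigits

open Filter Finset

/-- The `i`-th digit of `j` in base `g` (counted from the right, beginning with `0`) belongs to `A i` for all `i < K`. -/
def HasDigits (g K : ℕ) (A : ℕ → Finset ℕ) (j : ℕ) : Prop := ∀ i < K, j / g ^ i % g ∈ A i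

/-- The number of the choices of `K` digits in the sets `A i`. -/
def choices (K : ℕ) (A : ℕ → Finset ℕ) : ℕ := ∏ i ∈ range K, (A i).card

/-- `m` has at most `r` prime factors (counted with multiplicity), and all of them are larger than `y ^ (1 / r)`. -/
def AlmostPrime (y r m : ℕ) : Prop :=
  (∀ p : ℕ, p.Prime → p ∣ m → y < p ^ r) ∧ m.primeFactorsList.length ≤ r

/-- The set `H` is admissible: it misses a residue class modulo every prime. -/
def Admissible (H : Finset ℕ) : Prop := ∀ p : ℕ, p.Prime → ∃ m : ℕ, ∀ h ∈ H, ¬ p ∣ m + h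

/-- All `n + h`, `h ∈ H`, are almost primes, and no other integer in `[n, n + L]` is a prime. -/
def Realises (H : Finset ℕ) (L y r n : ℕ) : Prop :=
  (∀ h ∈ H, AlmostPrime y r (n + h)) ∧ ∀ e ≤ L, e ∉ H → ¬ (n + e).Prime

open Classical in
/-- The number of the `j < g ^ K` with digits in the `A i`, which have the property `P`. -/
noncomputable def count (g K : ℕ) (A : ℕ → Finset ℕ) (P : ℕ → Prop) : ℕ :=
  ((range (g ^ K)).filter fun j => HasDigits g K A j ∧ P j).card

lemma ND_le_count {g K : ℕ} {A : ℕ → Finset ℕ} {S : Set ℕ} {P : ℕ → Prop} (h : ∀ n < g ^ K, n ∈ S → P n) :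
    Pool.Agent.Y816.PD.ND g K A S ≤ count g K A P := by
  classical
  unfold Pool.Agent.Y816.PD.ND count
  apply card_le_card
  intro n hn
  have h1 := mem_filter.1 hn
  exact mem_filter.2 ⟨h1.1, h1.2.1, h n (mem_range.1 h1.1) h1.2.2⟩

lemma count_le_ND {g K : ℕ} {A : ℕ → Finset ℕ} {S : Set ℕ} {P : ℕ → Prop} (h : ∀ n < g ^ K, P n → n ∈ S) :
    count g K A P ≤ Pool.Agent.Y816.PD.ND g K A S := by
  classical
  unfold Pool.Agent.Y816.PD.ND count
  apply card_le_card
  intro n hn
  have h1 := mem_filter.1 hn
  exact mem_filter.2 ⟨h1.1, h1.2.1, h n (mem_range.1 h1.1) h1.2.2⟩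

open Pool.Agent.Y816.PD in
lemma choices_eq (K : ℕ) (A : ℕ → Finset ℕ) : (choices K A : ℝ) = NA K A := by
  unfold choices NA
  push_cast
  rfl

/-- A prime which prevents a set from being admissible is at most the number of its elements. -/
lemma le_card {H : Finset ℕ} {p : ℕ} (hp : p.Prime) (h : ∀ m : ℕ, ∃ e ∈ H, p ∣ m + e) : p ≤ H.card := by
  have : Fact p.Prime := ⟨hp⟩
  have h1 : Function.Surjective fun e : H => ((e : ℕ) : ZMod p) := by
    intro x
    obtain ⟨e, he, hd⟩ := h (-x).val
    refine ⟨⟨e, he⟩, ?_⟩
    have h2 := (ZMod.natCast_eq_zero_iff _ _).2 hd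
    push_cast at h2
    rw [ZMod.natCast_zmod_val] at h2
    simp only
    linear_combination h2
  have h2 := Fintype.card_le_of_surjective _ h1
  rwa [ZMod.card, Fintype.card_coe] at h2

/-- **Almost primes in every admissible pattern with no prime between them, near every base point and with restricted digits.** -/
theorem result (H : Finset ℕ) (h0 : 0 ∈ H) (hH : Admissible H) (L E : ℕ) :
    ∃ c : ℝ, 0 < c ∧ ∃ r₀ : ℕ, 2 ≤ r₀ ∧ ∀ r : ℕ, r₀ ≤ r → ∀ g : ℕ, 2 ≤ g → ∃ κ C : ℝ, 0 < κ ∧ 0 < C ∧
      ∀ᶠ K : ℕ in atTop, ∀ N : ℕ, N ≤ g ^ (E * K) →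
        ∀ A : ℕ → Finset ℕ, (∀ i < K, A i ⊆ range g) → (g : ℝ) ^ K ≤ Real.exp (c * K) * choices K A →
          ((∃ d ∈ A 0, ∀ h ∈ H, (N + d + h).Coprime g) → (∃ d ∈ A (K - 1), d ≠ 0) →
            κ * choices K A / (K : ℝ) ^ H.card ≤ count g K A fun j => Realises H L (g ^ K) r (N + j)) ∧
          (count g K A (fun j => ∀ h ∈ H, (N + j + h).Prime) : ℝ) ≤ C * choices K A / (K : ℝ) ^ H.card := by
  classical
  obtain ⟨S, hS⟩ : ∃ S : Finset ℕ, S = (range (L + 1)).filter fun e => e ∉ H ∧ Admissible (insert e H) := ⟨_, rfl⟩
  obtain ⟨c, hc, r0, hr0, h⟩ := Pool.Agent.Y816.PD.uni_gap H hH H.card rfl (card_pos.2 ⟨0, h0⟩) E S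
    (fun e he => by
      rw [hS, mem_filter] at he
      exact he.2)
  refine ⟨c, hc, r0, hr0, fun r hr g hg => ?_⟩
  obtain ⟨κ, C, hκ, hC, h1⟩ := h r hr g hg
  refine ⟨κ, C, hκ, hC, ?_⟩
  filter_upwards [h1, eventually_ge_atTop ((H.card + 1) ^ r + H.card + 3)] with K hK hK2
  intro N hN A hA hprod
  obtain ⟨hlow, hup⟩ := hK N hN A hA (by rw [← choices_eq]; exact hprod)
  rw [← choices_eq] at hlow hup
  constructor
  · intro hd hd'
    refine (hlow hd hd').trans (Nat.cast_le.2 ?_)
    refine ND_le_count fun j hn1 hj => ?_
    obtain ⟨⟨hn3, hn4⟩, hn5⟩ := hj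
    refine ⟨fun h hh => ⟨(hn4.2 h hh).1, (hn4.2 h hh).2⟩, fun e he heH hp => ?_⟩
    by_cases hadm : Admissible (insert e H)
    · exact hn5 e (by
        rw [hS, mem_filter, mem_range]
        exact ⟨by omega, heH, hadm⟩) hp
    · unfold Admissible at hadm
      push Not at hadm
      obtain ⟨p, hpp, hcov⟩ := hadm
      have hpc : p ≤ H.card + 1 := (le_card hpp hcov).trans (card_insert_le e H)
      obtain ⟨e', he', hdvd⟩ := hcov (N + j)
      have hKg : K < g ^ K := Nat.lt_pow_self (by omega)
      rw [mem_insert] at he'
      rcases he' with rfl | he'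
      · have h5 : p = N + j + e' := (Nat.prime_dvd_prime_iff_eq hpp hp).1 hdvd
        have h6 : K - 1 < g ^ (K - 1) := Nat.lt_pow_self (by omega)
        have h7 := hn4.1
        omega
      · have h5 := (hn4.2 e' he').1 p hpp hdvd
        have h6 : p ^ r ≤ (H.card + 1) ^ r := Nat.pow_le_pow_left hpc r
        omega
  · refine le_trans (Nat.cast_le.2 ?_) hup
    refine count_le_ND fun j hn1 hn3 => ?_
    intro h hh p hp hpd
    have h5 : j ≤ p := by
      rw [(Nat.prime_dvd_prime_iff_eq hp (hn3 h hh)).1 hpd]
      omega
    exact lt_of_le_of_lt h5 (lt_self_pow₀ hp.one_lt (by omega))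

end Pool.Agent.Results.MP_3ec731_nt.RestrictedDigits
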